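import Mathlib

namespace Pool.Agent.Results.MP_5c9c6a_an.Counter

open Set

abbrev E (n : ℕ) : Type := EuclideanSpace ℝ (Fin n)

variable {n : ℕ}

/-- The partial derivative in the `i`-th coordinate. -/
noncomputable def pd (i : Fin n) (f : E n → ℝ) (x : E n) : ℝ :=
  fderiv ℝ f x (EuclideanSpace.single i 1)

/-- The Hessian matrix. -/
noncomputable def Hess (f : E n → ℝ) (x : E n) : Matrix (Fin n) (Fin n) ℝ :=
  fun i j => pd i (pd j f) x

/-- `Hess⁺(f)`. -/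
def HessPos (f : E n → ℝ) : Set (E n) := {x | (Hess f x).PosDef}

/-- The levels `q ≥ inf f` such that `T_r(f) = max r f` is convex for all `r ≥ q`. -/
def Lev (f : E n → ℝ) : Set ℝ :=
  {q | (⨅ x, (f x : EReal)) ≤ q ∧ ∀ r, q ≤ r → ConvexOn ℝ univ (fun x => max r (f x))}

/-- The standing hypotheses (H), with `s = scl(f)`. -/
def Hyp (f : E n → ℝ) (s : ℝ) : Prop :=
  ContDiff ℝ 2 f ∧ ¬ ConvexOn ℝ univ f ∧ (Lev f).Nonempty ∧
  (∀ p, gradient f p = 0 → IsUnit (Hess f p)) ∧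
  Bornology.IsBounded {x | gradient f x = 0} ∧ Bornology.IsBounded (HessPos f)ᶜ ∧
  IsGLB (Lev f) s ∧ s ∈ range f ∧ (∀ x, f x = s → gradient f x ≠ 0) ∧
  {x | s < f x} ⊆ HessPos f

/-- `R(f)`, with `s = scl(f)`. -/
def R (f : E n → ℝ) (s : ℝ) : Set (E n) := HessPos f \ {x | s < f x}

noncomputable def F (x : E 2) : ℝ := (x 0 ^ 2 + x 1 ^ 2) ^ 2 / 4 - x 0 ^ 2 / 2 + 8 * x 1

lemma h0 (x : E 2) : HasFDerivAt (fun y : E 2 => y 0) (EuclideanSpace.proj (𝕜 := ℝ) (0 : Fin 2)) x :=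
  (EuclideanSpace.proj (𝕜 := ℝ) (0 : Fin 2)).hasFDerivAt
lemma h1 (x : E 2) : HasFDerivAt (fun y : E 2 => y 1) (EuclideanSpace.proj (𝕜 := ℝ) (1 : Fin 2)) x :=
  (EuclideanSpace.proj (𝕜 := ℝ) (1 : Fin 2)).hasFDerivAt

lemma dF (x v : E 2) : fderiv ℝ F x v =
    x 0 * (x 0 ^ 2 + x 1 ^ 2 - 1) * v 0 + (x 1 * (x 0 ^ 2 + x 1 ^ 2) + 8) * v 1 := by
  have := ((((((h0 x).pow 2).add ((h1 x).pow 2)).pow 2).mul_const (1 / 4)).sub
    (((h0 x).pow 2).mul_const (1 / 2))).add ((h1 x).const_mul 8)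
  have e : F = _ := funext fun y => show F y = (y 0 ^ 2 + y 1 ^ 2) ^ 2 * (1 / 4) -
    y 0 ^ 2 * (1 / 2) + 8 * y 1 by unfold F; ring
  rw [e]
  erw [this.fderiv]
  simp
  ring

lemma p0 : pd 0 F = fun x => x 0 * (x 0 ^ 2 + x 1 ^ 2 - 1) := by funext x; simp [pd, dF]
lemma p1 : pd 1 F = fun x => x 1 * (x 0 ^ 2 + x 1 ^ 2) + 8 := by funext x; simp [pd, dF]

lemma hess (x : E 2) : Hess F x =
    !![3 * x 0 ^ 2 + x 1 ^ 2 - 1, 2 * x 0 * x 1; 2 * x 0 * x 1, x 0 ^ 2 + 3 * x 1 ^ 2] := by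
  have a := ((h0 x).mul ((((h0 x).pow 2).add ((h1 x).pow 2)).sub_const 1)).fderiv
  have b := (((h1 x).mul (((h0 x).pow 2).add ((h1 x).pow 2))).add_const 8).fderiv
  ext i j
  fin_cases i <;> fin_cases j <;> simp only [Hess, Fin.zero_eta, Fin.mk_one, p0, p1, pd]
  · erw [a]; simp; ring
  · erw [b]; simp; ring
  · erw [a]; simp; ring
  · erw [b]; simp; ring

lemma pos {x : E 2} (h : 1 ≤ x 0 ^ 2 + x 1 ^ 2) (h' : 1 < x 0 ^ 2 + x 1 ^ 2 ∨ x 0 ≠ 0) :
    x ∈ HessPos F := by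
  show (Hess F x).PosDef
  rw [hess]
  refine Matrix.PosDef.of_dotProduct_mulVec_pos ?_ ?_
  · ext i j; fin_cases i <;> fin_cases j <;> simp
  · intro v hv
    simp [Matrix.mulVec, dotProduct, Fin.sum_univ_two]
    have hv' : v 0 ≠ 0 ∨ v 1 ≠ 0 := by
      by_contra hc
      push Not at hc
      exact hv (by ext i; fin_cases i <;> simp [hc.1, hc.2])
    have e : v 0 * ((3 * x 0 ^ 2 + x 1 ^ 2 - 1) * v 0 + 2 * x 0 * x 1 * v 1) +
        v 1 * (2 * x 0 * x 1 * v 0 + (x 0 ^ 2 + 3 * x 1 ^ 2) * v 1) =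
        2 * (x 0 * v 0 + x 1 * v 1) ^ 2 + (x 0 ^ 2 + x 1 ^ 2 - 1) * v 0 ^ 2 +
          (x 0 ^ 2 + x 1 ^ 2) * v 1 ^ 2 := by ring
    rw [e]
    have t1 : 0 ≤ (x 0 ^ 2 + x 1 ^ 2 - 1) * v 0 ^ 2 := mul_nonneg (by linarith) (sq_nonneg _)
    by_cases hv1 : v 1 = 0
    · have hv0 : v 0 ≠ 0 := by tauto
      rw [hv1]
      rcases h' with h' | h'
      · have : 0 < (x 0 ^ 2 + x 1 ^ 2 - 1) * v 0 ^ 2 := mul_pos (by linarith) (by positivity)
        positivity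
      · have : 0 < (x 0 * v 0 + x 1 * 0) ^ 2 := by rw [mul_zero, add_zero]; positivity
        nlinarith
    · have : 0 < (x 0 ^ 2 + x 1 ^ 2) * v 1 ^ 2 := mul_pos (by linarith) (by positivity)
      positivity

lemma big {x : E 2} (h : 33 / 4 < F x) : 1 < x 0 ^ 2 + x 1 ^ 2 := by
  by_contra hc
  push Not at hc
  unfold F at h
  have : x 1 ≤ 1 := by nlinarith
  nlinarith [sq_nonneg (x 0), sq_nonneg (x 1)]

lemma grad_iff (x : E 2) : gradient F x = 0 ↔ fderiv ℝ F x = 0 := by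
  simp [gradient]

lemma crit {x : E 2} (h : gradient F x = 0) : x 0 = 0 ∧ x 1 = -2 := by
  rw [grad_iff] at h
  have a := dF x (EuclideanSpace.single 0 1)
  have b := dF x (EuclideanSpace.single 1 1)
  rw [h] at a b
  simp at a b
  have hx : x 0 = 0 := by
    rcases a with a | a
    · exact a
    · exfalso
      rw [sub_eq_zero.1 a] at b
      have : x 1 = -8 := by linarith
      rw [this] at a
      nlinarith
  refine ⟨hx, ?_⟩
  rw [hx] at b
  have : (x 1 + 2) * ((x 1 - 1) ^ 2 + 3) = 0 := by linarith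
  rcases mul_eq_zero.1 this with h | h
  · linarith
  · nlinarith

lemma tangent {p : E 2} (h : 1 ≤ p 0 ^ 2 + p 1 ^ 2) (z : E 2) :
    F p + fderiv ℝ F p (z - p) ≤ F z := by
  rw [dF]
  simp only [F, PiLp.sub_apply]
  nlinarith [sq_nonneg (z 0 ^ 2 + z 1 ^ 2 - p 0 ^ 2 - p 1 ^ 2),
    mul_nonneg (sub_nonneg.2 h) (sq_nonneg (z 0 - p 0)),
    mul_nonneg (add_nonneg (sq_nonneg (p 0)) (sq_nonneg (p 1))) (sq_nonneg (z 1 - p 1))]

lemma conv {r : ℝ} (hr : 33 / 4 ≤ r) : ConvexOn ℝ univ (fun x => max r (F x)) := by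
  refine ⟨convex_univ, fun u _ v _ a b ha hb hab => ?_⟩
  simp only [smul_eq_mul]
  have l1 := mul_le_mul_of_nonneg_left (le_max_left r (F u)) ha
  have l2 := mul_le_mul_of_nonneg_left (le_max_left r (F v)) hb
  have l3 := mul_le_mul_of_nonneg_left (le_max_right r (F u)) ha
  have l4 := mul_le_mul_of_nonneg_left (le_max_right r (F v)) hb
  have e : a * r + b * r = r := by rw [← add_mul, hab, one_mul]
  rcases le_or_gt (F (a • u + b • v)) r with h | h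
  · rw [max_eq_left h]; linarith
  · rw [max_eq_right h.le]
    set p := a • u + b • v with hp
    have h1 := (big (hr.trans_lt h)).le
    have t1 := mul_le_mul_of_nonneg_left (tangent h1 u) ha
    have t2 := mul_le_mul_of_nonneg_left (tangent h1 v) hb
    have z : a * fderiv ℝ F p (u - p) + b * fderiv ℝ F p (v - p) = 0 := by
      rw [← smul_eq_mul, ← smul_eq_mul, ← map_smul, ← map_smul, ← map_add]
      have : a • (u - p) + b • (v - p) = 0 := by
        rw [smul_sub, smul_sub, sub_add_sub_comm, ← add_smul, hab, one_smul, ← hp, sub_self]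
      rw [this, map_zero]
    have e' : a * F p + b * F p = F p := by rw [← add_mul, hab, one_mul]
    linarith

lemma nconv {q : ℝ} (hq : q < 33 / 4) : ¬ ConvexOn ℝ univ (fun x => max q (F x)) := by
  intro h
  obtain ⟨t, ht0, ht1, ht⟩ : ∃ t : ℝ, 0 < t ∧ t < 1 ∧ q < (1 - t) ^ 4 / 4 + 8 * (1 - t) := by
    refine ⟨min (1 / 2) ((33 / 4 - q) / 10), lt_min (by norm_num) (by linarith),
      (min_le_left _ _).trans_lt (by norm_num), ?_⟩
    set t := min (1 / 2) ((33 / 4 - q) / 10)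
    have a1 : t ≤ (33 / 4 - q) / 10 := min_le_right _ _
    have a2 : 0 < t := lt_min (by norm_num) (by linarith)
    nlinarith [sq_nonneg (t ^ 2 - 2 * t), sq_nonneg t]
  have := h.2 (mem_univ !₂[t, 1 - t]) (mem_univ !₂[-t, 1 - t])
    (show (0 : ℝ) ≤ 1 / 2 by norm_num) (show (0 : ℝ) ≤ 1 / 2 by norm_num) (by norm_num)
  have e1 : F ((1 / 2 : ℝ) • !₂[t, 1 - t] + (1 / 2 : ℝ) • !₂[-t, 1 - t]) =
      (1 - t) ^ 4 / 4 + 8 * (1 - t) := by simp [F]; ring
  have e2 : F !₂[-t, 1 - t] = F !₂[t, 1 - t] := by simp [F]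
  have e3 : F !₂[t, 1 - t] < (1 - t) ^ 4 / 4 + 8 * (1 - t) := by
    simp only [F, Matrix.cons_val_zero, Matrix.cons_val_one]
    have : 0 < t ^ 2 * (t * (4 - 3 * t)) := mul_pos (by positivity) (mul_pos ht0 (by linarith))
    nlinarith
  simp only [smul_eq_mul] at this
  rw [e1, e2] at this
  have l := le_max_right q ((1 - t) ^ 4 / 4 + 8 * (1 - t))
  have := max_lt ht e3
  linarith

lemma bdd {S : Set (E 2)} (h : ∀ x ∈ S, x 0 ^ 2 + x 1 ^ 2 ≤ 4) : Bornology.IsBounded S := by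
  refine (Metric.isBounded_closedBall (x := (0 : E 2)) (r := 2)).subset fun x hx => ?_
  rw [mem_closedBall_zero_iff, EuclideanSpace.norm_eq, Fin.sum_univ_two]
  simp only [Real.norm_eq_abs, sq_abs]
  exact Real.sqrt_le_iff.2 ⟨by norm_num, by linarith [h x hx]⟩

theorem result : ∃ (n : ℕ) (f : E n → ℝ) (s : ℝ), Hyp f s ∧ ∃ x ∈ R f s,
    ∃ y ∈ connectedComponentIn (R f s) x, x ≠ y ∧ gradient f x = gradient f y := by
  have hs : F !₂[0, 1] = 33 / 4 := by simp [F]; norm_num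
  have hL : (33 / 4 : ℝ) ∈ Lev F :=
    ⟨(iInf_le _ !₂[0, 1]).trans (by rw [hs]), fun r hr => conv hr⟩
  let γ : ℝ → E 2 := fun θ => !₂[Real.cos θ, -2 * Real.sin θ]
  have hγ : ∀ θ ∈ Icc 0 Real.pi, γ θ ∈ R F (33 / 4) := by
    intro θ hθ
    have s0 := Real.sin_nonneg_of_mem_Icc hθ
    have s1 := Real.sin_le_one θ
    have c := Real.sin_sq_add_cos_sq θ
    have e0 : γ θ 0 = Real.cos θ := rfl
    have e1 : γ θ 1 = -2 * Real.sin θ := rfl
    refine ⟨pos (by rw [e0, e1]; nlinarith) ?_, ?_⟩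
    · rw [e0, e1]
      by_cases h : Real.cos θ = 0
      · left; rw [h] at c ⊢; nlinarith
      · exact Or.inr h
    · show ¬ 33 / 4 < F (γ θ)
      rw [F, e0, e1]
      have : Real.cos θ ^ 2 + (-2 * Real.sin θ) ^ 2 ≤ 4 := by nlinarith
      have := pow_le_pow_left₀ (by positivity) this 2
      nlinarith
  have hc : Continuous γ := by fun_prop
  refine ⟨2, F, 33 / 4, ⟨by unfold F; fun_prop, fun h => nconv (q := 0) (by norm_num)
    ((convexOn_const 0 convex_univ).sup h), ⟨_, hL⟩, fun p hp => ?_, bdd fun x hx => ?_,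
    bdd fun x hx => ?_, ⟨fun q hq => ?_, fun q hq => hq hL⟩, ⟨_, hs⟩, fun x hx h => ?_,
    fun x hx => pos (big hx).le (Or.inl (big hx))⟩, γ 0, hγ 0 ⟨le_rfl, Real.pi_pos.le⟩,
    γ Real.pi, ?_, ?_, ?_⟩
  · obtain ⟨a, b⟩ := crit hp
    exact (pos (by rw [a, b]; norm_num) (Or.inl (by rw [a, b]; norm_num))).isUnit
  · obtain ⟨a, b⟩ := crit hx
    rw [a, b]; norm_num
  · by_contra hcon
    exact hx (pos (by linarith) (Or.inl (by linarith)))
  · by_contra hcon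
    exact nconv (not_le.1 hcon) (hq.2 q le_rfl)
  · obtain ⟨a, b⟩ := crit h
    rw [F, a, b] at hx
    norm_num at hx
  · refine (isPreconnected_Icc.image γ hc.continuousOn).subset_connectedComponentIn
      ⟨0, ⟨le_rfl, Real.pi_pos.le⟩, rfl⟩ ?_ ⟨Real.pi, ⟨Real.pi_pos.le, le_rfl⟩, rfl⟩
    rintro _ ⟨θ, hθ, rfl⟩
    exact hγ θ hθ
  · intro h
    have := congrArg (fun x : E 2 => x 0) h
    simp [γ] at this
    norm_num at this
  · have : fderiv ℝ F (γ 0) = fderiv ℝ F (γ Real.pi) := by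
      ext v
      simp [dF, γ]
    simp only [gradient, this]

end Pool.Agent.Results.MP_5c9c6a_an.Counter
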